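import Pool.Agent.Helper876.Goddyn.Col

/-!
# Alternating circuits in a union of two Hamilton circuits: the 3-connected case, `n ≢ 1 (mod 4)`
-/

set_option autoImplicit false

namespace Pool.Agent.Results.MP_1fb45e_co.ThreeConnected

open Goddyn

/-- Let `H` be a 3-connected 4-regular graph with an edge-decomposition into two Hamilton circuits
`C₁`, `C₂`. If `|V(H)| ≢ 1 (mod 4)`, or if `H` has a decomposition into alternating circuits, then
there is an alternating circuit `D` such that `H - E(D)` has no cut-vertex. -/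
theorem result {V : Type*} [Finite V] (H : SimpleGraph V) (C₁ C₂ : H.Subgraph)
    (h : IsHamiltonPair H C₁ C₂) (h3 : IsThreeConnected H)
    (hn : Nat.card V % 4 ≠ 1 ∨ HasAlternatingDecomposition H C₁ C₂) :
    ∃ D : H.Subgraph, IsAlternating C₁ C₂ D ∧
      ∀ z, ¬ IsCutVertex (H.deleteEdges D.edgeSet) z := by
  have hne : Nonempty V := by
    have h4 := h3.1
    by_contra hcon
    rw [not_nonempty_iff] at hcon
    rw [Nat.card_of_isEmpty] at h4
    omega
  obtain ⟨k, F, hF, hu⟩ : HasAlternatingDecomposition H C₁ C₂ := by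
    rcases hn with hn | hn
    · exact exists_decomposition h hn
    · exact hn
  obtain ⟨v⟩ := hne
  obtain ⟨w, hw⟩ : (H.neighborSet v).Nonempty := by
    apply Set.nonempty_of_ncard_ne_zero
    rw [h.regular]; norm_num
  obtain ⟨j, -, -⟩ := hu s(v, w) hw
  have : Nonempty (Fin k) := ⟨j⟩
  obtain ⟨i, hi⟩ := exists_removable h h3 hF (fun u v huv => hu s(u, v) huv)
  exact ⟨F i, hF i, hi⟩

end Pool.Agent.Results.MP_1fb45e_co.ThreeConnected
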